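import Mathlib
import Pool.Agent.X69.Ponag.Main

/-! A Hausdorff Menger space on which Bob wins the partial open neighborhood assignment game but
does not win the Menger game. -/

namespace Pool.Agent.Results.MP_4977a6_gt.MengerCounterexample

open Pool.Agent.X69.Ponag

/-- There is a Hausdorff Menger space `X` such that Bob has a winning strategy in `PONAG(X)` but
Bob has no winning strategy in the Menger game on `X`. -/
theorem result : ∃ (X : Type) (_ : TopologicalSpace X),
    T2Space X ∧ Menger X ∧ BobWinsPONAG X ∧ ¬ BobWinsMenger X :=
  exists_counterexample

end Pool.Agent.Results.MP_4977a6_gt.MengerCounterexample
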